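import Pool.Agent.D0H91.GI.Stm

/-!
# Project GI (helper91), module CH: truncation, multiplicities and bounds, the sum over the samples
-/

set_option autoImplicit false

namespace Pool.Agent.D0H30.GI

open Finset
open Pool.Agent.W301.SS (om)
open Pool.Agent.D0H91.GI

lemma pr_zero : pr 0 = 0 := by simp [pr]

lemma pr_ge (m : ℕ) : m ≤ pr m := by
  unfold pr
  split_ifs with h
  · omega
  · have := Nat.add_two_le_nth_prime (m - 1)
    omega

lemma pr_inj {m m' : ℕ} (h : pr m = pr m') : m = m' := by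
  unfold pr at h
  split_ifs at h with h1 h2 h2
  · omega
  · have := Nat.add_two_le_nth_prime (m' - 1)
    omega
  · have := Nat.add_two_le_nth_prime (m - 1)
    omega
  · have := Nat.nth_injective Nat.infinite_setOfPred_prime h
    omega

lemma ch_zero (l : List ℝ) : ch l 0 = 0 := by
  induction l with
  | nil => rfl
  | cons α l ih =>
    show ch l (pr ⌊α * ((0 : ℕ) : ℝ)⌋₊) = 0
    rw [Nat.cast_zero, mul_zero, Nat.floor_zero, pr_zero, ih]

/-- Module CH, part TR. -/
theorem t_TR : S_TR := by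
  intro l
  induction l with
  | nil =>
    intro _ q _
    show q ≤ 1 * (q + 1)
    omega
  | cons α l ih =>
    intro hl q hq
    have hα : 0 < α := hl α List.mem_cons_self
    have hl' : Pos l := fun β hβ => hl β (List.mem_cons_of_mem _ hβ)
    have e : ch (α :: l) q = ch l (pr ⌊α * q⌋₊) := rfl
    rw [e] at hq ⊢
    set u := ch l (pr ⌊α * q⌋₊) with hu
    have h1 := ih hl' (pr ⌊α * q⌋₊) hq
    rw [← hu] at h1
    have h2 : ⌊α * q⌋₊ ≤ KK l * (u + 1) := (pr_ge _).trans h1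
    have h3 : α * q < KK l * (u + 1) + 1 := by
      have h4 := Nat.lt_floor_add_one (α * q)
      have h5 : ((⌊α * q⌋₊ : ℕ) : ℝ) ≤ ((KK l * (u + 1) : ℕ) : ℝ) := by exact_mod_cast h2
      push_cast at h5
      linarith
    have h6 : (1 / α : ℝ) ≤ (⌈1 / α⌉₊ : ℝ) := Nat.le_ceil _
    have h7 : (q : ℝ) ≤ ((KK (α :: l) * (u + 1) : ℕ) : ℝ) := by
      have e2 : KK (α :: l) = ⌈1 / α⌉₊ * (KK l + 1) := rfl
      rw [e2]
      push_cast
      have hu0 : (0 : ℝ) ≤ u := Nat.cast_nonneg _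
      have hK0 : (0 : ℝ) ≤ KK l := Nat.cast_nonneg _
      have h8 : (KK l : ℝ) * (u + 1) + 1 ≤ (KK l + 1) * (u + 1) := by nlinarith
      have h9 : (q : ℝ) ≤ (1 / α) * ((KK l + 1) * (u + 1)) := by
        rw [one_div, inv_mul_eq_div, le_div_iff₀ hα]
        nlinarith
      calc (q : ℝ) ≤ (1 / α) * ((KK l + 1) * (u + 1)) := h9
        _ ≤ (⌈1 / α⌉₊ : ℝ) * ((KK l + 1) * (u + 1)) := by
            apply mul_le_mul_of_nonneg_right h6
            positivity
        _ = (⌈1 / α⌉₊ : ℝ) * (KK l + 1) * (u + 1) := by ring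
    exact_mod_cast h7

lemma wt_nonneg (l : List ℝ) (hl : Pos l) (q : ℕ) : 0 ≤ wt l q := by
  induction l generalizing q with
  | nil => exact zero_le_one
  | cons α l ih =>
    have hα : 0 < α := hl α List.mem_cons_self
    have hl' : Pos l := fun β hβ => hl β (List.mem_cons_of_mem _ hβ)
    exact mul_nonneg (mul_nonneg hα.le (Real.log_natCast_nonneg _)) (ih hl' _)

lemma log_ge_one (u : ℕ) : 1 ≤ Real.log ((u : ℝ) + 3) := by
  rw [Real.le_log_iff_exp_le (by positivity)]
  have := Real.exp_one_lt_d9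
  have : (0 : ℝ) ≤ u := Nat.cast_nonneg _
  linarith

lemma log_le_of (K u q : ℕ) (h : q ≤ K * (u + 1)) :
    Real.log q ≤ (K + 1) * Real.log ((u : ℝ) + 3) := by
  have h1 := log_ge_one u
  have hu0 : (0 : ℝ) ≤ u := Nat.cast_nonneg _
  rcases Nat.eq_zero_or_pos q with rfl | hq
  · rw [Nat.cast_zero, Real.log_zero]
    positivity
  have hK : 0 < K := by
    rcases Nat.eq_zero_or_pos K with rfl | h
    · omega
    · exact h
  have hKR : (0 : ℝ) < (K : ℝ) := by exact_mod_cast hK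
  have h2 : (q : ℝ) ≤ K * ((u : ℝ) + 3) := by
    have : (q : ℝ) ≤ ((K * (u + 1) : ℕ) : ℝ) := by exact_mod_cast h
    push_cast at this
    nlinarith
  have h3 : Real.log q ≤ Real.log (K * ((u : ℝ) + 3)) :=
    Real.log_le_log (by exact_mod_cast hq) h2
  rw [Real.log_mul hKR.ne' (by positivity)] at h3
  have h4 : Real.log K ≤ K := (Real.log_le_sub_one_of_pos hKR).trans (by linarith)
  nlinarith

lemma wt_le (l : List ℝ) (hl : Pos l) : ∃ C E : ℕ, ∀ q, 0 < ch l q →
    wt l q ≤ C * Real.log ((ch l q : ℝ) + 3) ^ E := by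
  induction l with
  | nil =>
    refine ⟨1, 0, fun q _ => ?_⟩
    show (1 : ℝ) ≤ _
    simp
  | cons α l ih =>
    have hα : 0 < α := hl α List.mem_cons_self
    have hl' : Pos l := fun β hβ => hl β (List.mem_cons_of_mem _ hβ)
    obtain ⟨C, E, h⟩ := ih hl'
    refine ⟨⌈α * (KK l + 1) * C⌉₊, E + 1, fun q hq => ?_⟩
    have e : ch (α :: l) q = ch l (pr ⌊α * q⌋₊) := rfl
    have e2 : wt (α :: l) q = α * Real.log (pr ⌊α * q⌋₊) * wt l (pr ⌊α * q⌋₊) := rfl
    rw [e] at hq ⊢
    rw [e2]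
    set q' := pr ⌊α * q⌋₊ with hq'
    have h1 := t_TR l hl' q' hq
    have h2 := h q' hq
    have h3 := log_le_of _ _ _ h1
    have h4 := log_ge_one (ch l q')
    have h5 := wt_nonneg l hl' q'
    set L := Real.log ((ch l q' : ℝ) + 3) with hL
    calc α * Real.log q' * wt l q' ≤ α * ((KK l + 1) * L) * (C * L ^ E) := by
          apply mul_le_mul _ h2 h5 (by positivity)
          exact mul_le_mul_of_nonneg_left h3 hα.le
      _ = (α * (KK l + 1) * C) * L ^ (E + 1) := by ring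
      _ ≤ (⌈α * (KK l + 1) * C⌉₊ : ℝ) * L ^ (E + 1) := by
          apply mul_le_mul_of_nonneg_right (Nat.le_ceil _) (by positivity)

lemma fib (α : ℝ) (hα : 0 < α) (S : Finset ℕ) (v : ℕ) :
    (S.filter (fun q : ℕ => pr ⌊α * q⌋₊ = v)).card ≤ ⌈1 / α⌉₊ := by
  classical
  rcases (S.filter (fun q : ℕ => pr ⌊α * q⌋₊ = v)).eq_empty_or_nonempty with h | ⟨q0, h0⟩
  · rw [h]
    simp
  have e0 := (mem_filter.1 h0).2
  set m := ⌊α * q0⌋₊ with hm
  have hsub : S.filter (fun q : ℕ => pr ⌊α * q⌋₊ = v) ⊆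
      Ico ⌈(m : ℝ) / α⌉₊ (⌈(m : ℝ) / α⌉₊ + ⌈1 / α⌉₊) := by
    intro q hq
    have e1 := (mem_filter.1 hq).2
    have e2 : ⌊α * q⌋₊ = m := pr_inj (e1.trans e0.symm)
    have hq0 : (0 : ℝ) ≤ α * q := by positivity
    have e3 : (m : ℝ) ≤ α * q := by
      rw [← e2]
      exact Nat.floor_le hq0
    have e4 : α * q < m + 1 := by
      rw [← e2]
      exact Nat.lt_floor_add_one _
    rw [mem_Ico]
    constructor
    · apply Nat.ceil_le.2
      rw [div_le_iff₀ hα]
      linarith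
    · have e5 : (q : ℝ) < (m : ℝ) / α + 1 / α := by
        rw [← add_div, lt_div_iff₀ hα]
        linarith
      have e6 : (m : ℝ) / α ≤ ⌈(m : ℝ) / α⌉₊ := Nat.le_ceil _
      have e7 : 1 / α ≤ ⌈1 / α⌉₊ := Nat.le_ceil _
      have e8 : (q : ℝ) < ((⌈(m : ℝ) / α⌉₊ + ⌈1 / α⌉₊ : ℕ) : ℝ) := by
        push_cast
        linarith
      exact_mod_cast e8
  calc _ ≤ (Ico ⌈(m : ℝ) / α⌉₊ (⌈(m : ℝ) / α⌉₊ + ⌈1 / α⌉₊)).card := card_le_card hsub
    _ = ⌈1 / α⌉₊ := by rw [Nat.card_Ico]; omega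

lemma mult (l : List ℝ) (hl : Pos l) : ∃ C : ℕ, ∀ u, 0 < u →
    ((Icc 1 (KK l * (u + 1))).filter fun q => ch l q = u).card ≤ C := by
  induction l with
  | nil =>
    refine ⟨1, fun u _ => ?_⟩
    have : ((Icc 1 (KK [] * (u + 1))).filter fun q => ch [] q = u) ⊆ {u} := by
      intro q hq
      rw [mem_singleton]
      exact (mem_filter.1 hq).2
    exact (card_le_card this).trans (by simp)
  | cons α l ih =>
    have hα : 0 < α := hl α List.mem_cons_self
    have hl' : Pos l := fun β hβ => hl β (List.mem_cons_of_mem _ hβ)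
    obtain ⟨C, h⟩ := ih hl'
    refine ⟨⌈1 / α⌉₊ * C, fun u hu => ?_⟩
    classical
    refine (card_le_mul_card_image_of_maps_to (f := fun q : ℕ => pr ⌊α * q⌋₊)
      (t := (Icc 1 (KK l * (u + 1))).filter fun q => ch l q = u) ?_ ⌈1 / α⌉₊ ?_).trans
      (Nat.mul_le_mul_left _ (h u hu))
    · intro q hq
      have e : ch l (pr ⌊α * q⌋₊) = u := (mem_filter.1 hq).2
      rw [mem_filter, mem_Icc]
      have h1 := t_TR l hl' (pr ⌊α * q⌋₊) (by rw [e]; exact hu)
      rw [e] at h1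
      refine ⟨⟨?_, h1⟩, e⟩
      by_contra h2
      have h3 : pr ⌊α * q⌋₊ = 0 := by omega
      rw [h3, ch_zero] at e
      omega
    · intro v _
      exact fib α hα _ v

/-- Module CH, part MB. -/
theorem t_MB : S_MB := by
  intro l hl
  obtain ⟨C₁, E, h1⟩ := wt_le l hl
  obtain ⟨C₂, h2⟩ := mult l hl
  set C := C₁ + C₂ + C₂ * ((KK l + 1) * C₁) with hC
  have hC1 : (C₁ : ℝ) ≤ C := by exact_mod_cast (by omega : C₁ ≤ C)
  refine ⟨C, E + 1, wt_nonneg l hl, ?_, ?_, ?_⟩
  · intro q hq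
    have h3 := log_ge_one (ch l q)
    calc wt l q ≤ C₁ * Real.log ((ch l q : ℝ) + 3) ^ E := h1 q hq
      _ ≤ C * Real.log ((ch l q : ℝ) + 3) ^ (E + 1) := by
          apply mul_le_mul hC1 _ (by positivity) (by positivity)
          exact pow_le_pow_right₀ h3 (Nat.le_succ _)
  · intro u hu
    exact (h2 u hu).trans (by omega)
  · intro u hu
    have h3 := log_ge_one u
    set L := Real.log ((u : ℝ) + 3) with hL
    have hom : ∀ q : ℕ, 0 ≤ om q ∧ om q ≤ Real.log q := by
      intro q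
      unfold om
      split_ifs
      · exact ⟨Real.log_natCast_nonneg _, le_rfl⟩
      · exact ⟨le_rfl, Real.log_natCast_nonneg _⟩
    unfold mu
    rw [← sum_filter]
    have hterm : ∀ q ∈ (Icc 1 (KK l * (u + 1))).filter (fun q => ch l q = u),
        |om q * wt l q| ≤ ((KK l + 1) * L) * (C₁ * L ^ E) := by
      intro q hq
      obtain ⟨ha, hb⟩ := mem_filter.1 hq
      rw [mem_Icc] at ha
      have e1 := log_le_of _ _ _ ha.2
      have e2 := h1 q (by rw [hb]; exact hu)
      rw [hb] at e2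
      rw [abs_of_nonneg (mul_nonneg (hom q).1 (wt_nonneg l hl q))]
      exact mul_le_mul ((hom q).2.trans e1) e2 (wt_nonneg l hl q) (by positivity)
    calc |∑ q ∈ (Icc 1 (KK l * (u + 1))).filter (fun q => ch l q = u), om q * wt l q|
        ≤ ∑ q ∈ (Icc 1 (KK l * (u + 1))).filter (fun q => ch l q = u), |om q * wt l q| :=
          abs_sum_le_sum_abs _ _
      _ ≤ ∑ q ∈ (Icc 1 (KK l * (u + 1))).filter (fun q => ch l q = u),
            ((KK l + 1) * L) * (C₁ * L ^ E) := sum_le_sum hterm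
      _ = (((Icc 1 (KK l * (u + 1))).filter (fun q => ch l q = u)).card : ℝ) *
            (((KK l + 1) * L) * (C₁ * L ^ E)) := by rw [sum_const, nsmul_eq_mul]
      _ ≤ (C₂ : ℝ) * (((KK l + 1) * L) * (C₁ * L ^ E)) := by
          apply mul_le_mul_of_nonneg_right _ (by positivity)
          exact_mod_cast h2 u hu
      _ = ((C₂ * ((KK l + 1) * C₁) : ℕ) : ℝ) * L ^ (E + 1) := by
          push_cast
          ring
      _ ≤ (C : ℝ) * L ^ (E + 1) := by
          apply mul_le_mul_of_nonneg_right _ (by positivity)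
          exact_mod_cast (by omega : C₂ * ((KK l + 1) * C₁) ≤ C)

/-- Module CH, part I1. -/
theorem t_I1 : S_I1 := by
  intro l hl M n α hα Z hZ
  have hl' : Pos (α :: l) := by
    intro β hβ
    rcases List.mem_cons.1 hβ with h | h
    · rw [h]; exact hα
    · exact hl β h
  have e2 : KK (α :: l) = ⌈1 / α⌉₊ * (KK l + 1) := rfl
  have hmu : ∀ u ∈ Ico 1 n, mu (α :: l) u =
      ∑ q ∈ Icc 1 Z, if ch (α :: l) q = u then om q * wt (α :: l) q else 0 := by
    intro u hu
    rw [mem_Ico] at hu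
    unfold mu
    apply sum_subset
    · apply Icc_subset_Icc le_rfl
      rw [e2]
      refine le_trans ?_ hZ
      apply Nat.mul_le_mul_left
      omega
    · intro q _ hq2
      rw [if_neg]
      intro h
      apply hq2
      have h3 := t_TR (α :: l) hl' q (by rw [h]; omega)
      rw [h] at h3
      rw [mem_Icc]
      refine ⟨?_, h3⟩
      by_contra h4
      have h5 : q = 0 := by omega
      rw [h5, ch_zero] at h
      omega
  have hR : ∑ u ∈ Ico 1 n, mu (α :: l) u * M (n - u) = ∑ q ∈ Icc 1 Z, ∑ u ∈ Ico 1 n,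
      (if ch (α :: l) q = u then om q * wt (α :: l) q else 0) * M (n - u) := by
    rw [sum_comm]
    apply sum_congr rfl
    intro u hu
    rw [hmu u hu, sum_mul]
  rw [hR, mul_sum]
  apply sum_congr rfl
  intro q _
  have e : ch (α :: l) q = ch l (pr ⌊α * q⌋₊) := rfl
  have e3 : wt (α :: l) q = α * Real.log (pr ⌊α * q⌋₊) * wt l (pr ⌊α * q⌋₊) := rfl
  rw [e3]
  simp only [e]
  unfold be
  by_cases h : 0 < ch l (pr ⌊α * q⌋₊) ∧ ch l (pr ⌊α * q⌋₊) < n
  · have h0 : 0 < ⌊α * q⌋₊ := by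
      by_contra h4
      have h5 : ⌊α * q⌋₊ = 0 := by omega
      rw [h5, pr_zero, ch_zero] at h
      omega
    rw [if_pos ⟨h0, h⟩, sum_eq_single (ch l (pr ⌊α * q⌋₊))]
    · rw [if_pos rfl]
      ring
    · intro u _ hu
      rw [if_neg (fun h' => hu h'.symm), zero_mul]
    · intro h'
      exfalso
      apply h'
      rw [mem_Ico]
      exact ⟨h.1, h.2⟩
  · rw [if_neg (fun h' => h h'.2), mul_zero, mul_zero]
    symm
    apply sum_eq_zero
    intro u hu
    rw [mem_Ico] at hu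
    rw [if_neg, zero_mul]
    intro h'
    apply h
    rw [h']
    exact ⟨hu.1, hu.2⟩

end Pool.Agent.D0H30.GI
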